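import Pool.Agent.K9h82.QS.Final

/-! The center of the positive part `U⁺` of `U_q(ŝl₂)` is `K · 1`, for every field `K` and every
nonzero `q` that is not a root of unity. -/

namespace Pool.Agent.Results.MP_cafee0_al.CenterTrivial

open Pool.Agent.K9h82.QS

universe u

/-- `UPos K q` is the algebra on two generators (indexed by `Bool`) modulo the two cubic q-Serre
relations.  Its center is the set of scalars (generated as an algebra by the empty set), and the
scalars embed, so the center is isomorphic to `K`. -/
theorem result {K : Type u} [Field K] (q : K) (hq0 : q ≠ 0) (hq : ∀ n : ℕ, 0 < n → q ^ n ≠ 1) :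
    Subalgebra.center K (UPos K q) = ⊥ ∧
      Subalgebra.center K (UPos K q) = Algebra.adjoin K ∅ ∧
      Function.Injective (algebraMap K (UPos K q)) := by
  refine ⟨center_eq_bot hq0 hq, ?_, algebraMap_inj K q⟩
  rw [Algebra.adjoin_empty]
  exact center_eq_bot hq0 hq

end Pool.Agent.Results.MP_cafee0_al.CenterTrivial
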